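import Mathlib

set_option autoImplicit false

namespace Pool.Agent.Results.MP_f2c072_co.Q1
open Finset Equiv

/-- the window of `σ` starting at (0-based) position `i` reduces to the pattern `p` -/
def Occ {k n : ℕ} (p : Perm (Fin k)) (σ : Perm (Fin n)) (i : ℕ) : Prop :=
  ∃ h : i + k ≤ n, ∀ a b : Fin k,
    σ ⟨i + a, by omega⟩ < σ ⟨i + b, by omega⟩ ↔ p a < p b

open Classical in
/-- `α_B(n)`: permutations of `n` letters avoiding every pattern of `B` consecutively -/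
noncomputable def alpha {k : ℕ} (B : Finset (Perm (Fin k))) (n : ℕ) : ℕ :=
  (univ.filter (fun σ : Perm (Fin n) => ∀ p ∈ B, ∀ i, ¬ Occ p σ i)).card

open Classical in
noncomputable def E (p : Perm (Fin 6)) (i : ℕ) : Finset (Perm (Fin 11)) :=
  univ.filter (fun σ => Occ p σ i)

lemma mem_E {p : Perm (Fin 6)} {i : ℕ} {σ : Perm (Fin 11)} : σ ∈ E p i ↔ Occ p σ i := by
  simp [E]

lemma E_le (p q : Perm (Fin 6)) (i : ℕ) : (E p i).card ≤ (E q i).card := by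
  by_cases h : i + 6 ≤ 11
  · let f : Fin 6 ↪ Fin 11 := ⟨fun a => ⟨i + a, by omega⟩, fun a b e => by
      have := congrArg Fin.val e
      exact Fin.ext (by simpa using this)⟩
    let π : Perm (Fin 11) := (p⁻¹ * q).viaFintypeEmbedding f
    refine card_le_card_of_injOn (fun σ => σ * π) ?_ (fun a _ b _ e => mul_right_cancel e)
    intro σ hσ
    obtain ⟨_, h2⟩ := mem_E.1 (mem_coe.1 hσ)
    refine mem_coe.2 (mem_E.2 ⟨h, fun a b => ?_⟩)
    show σ (π (f a)) < σ (π (f b)) ↔ _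
    rw [Perm.viaFintypeEmbedding_apply_image, Perm.viaFintypeEmbedding_apply_image]
    have := h2 ((p⁻¹ * q) a) ((p⁻¹ * q) b)
    refine Iff.trans this ?_
    simp
  · refine card_le_card fun σ hσ => absurd (mem_E.1 hσ).1 h

def Compat (p q : Perm (Fin 6)) (i j : ℕ) : Prop :=
  ∀ a b c d : Fin 6, i + a = j + c → i + b = j + d → (p a < p b ↔ q c < q d)

instance (p q : Perm (Fin 6)) (i j : ℕ) : Decidable (Compat p q i j) := by
  unfold Compat; infer_instance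

lemma compat {p q : Perm (Fin 6)} {i j : ℕ} {σ : Perm (Fin 11)} (h1 : σ ∈ E p i)
    (h2 : σ ∈ E q j) : Compat p q i j := by
  obtain ⟨_, h1⟩ := mem_E.1 h1
  obtain ⟨_, h2⟩ := mem_E.1 h2
  intro a b c d e1 e2
  rw [← h1, ← h2]
  simp only [e1, e2]

noncomputable def A (P : Bool → Perm (Fin 6)) : Finset (Perm (Fin 11)) :=
  (univ : Finset (Bool × Fin 5)).biUnion (fun t => E (P t.1) t.2)

noncomputable def B (P : Bool → Perm (Fin 6)) : Finset (Perm (Fin 11)) :=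
  (univ : Finset Bool).biUnion (fun t => E (P t) 5)

lemma alpha_eq (P : Bool → Perm (Fin 6)) :
    alpha {P true, P false} 11 + (A P ∪ B P).card = Fintype.card (Perm (Fin 11)) := by
  rw [← card_compl_add_card (A P ∪ B P)]
  congr 1
  unfold alpha
  congr 1
  ext σ
  simp only [mem_filter, mem_univ, true_and, mem_compl, mem_union, A, B, mem_biUnion, mem_E]
  constructor
  · rintro h (⟨t, ht⟩ | ⟨t, ht⟩)
    · exact h (P t.1) (by cases t.1 <;> simp) _ ht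
    · exact h (P t) (by cases t <;> simp) _ ht
  · intro h p hp i hi
    obtain ⟨t, rfl⟩ : ∃ t, P t = p := by
      rcases mem_insert.1 hp with e | e
      · exact ⟨_, e.symm⟩
      · exact ⟨_, (mem_singleton.1 e).symm⟩
    have := hi.1
    by_cases e : i = 5
    · exact h (Or.inr ⟨t, e ▸ hi⟩)
    · exact h (Or.inl ⟨(t, ⟨i, by omega⟩), hi⟩)

def t1 : Perm (Fin 6) := swap 4 5
def t2 : Perm (Fin 6) := swap 3 4 * swap 4 5
def t3 : Perm (Fin 6) := swap 1 2 * swap 2 3 * swap 4 5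
def P0 : Bool → Perm (Fin 6) := fun b => if b then t1 else t2
def P1 : Bool → Perm (Fin 6) := fun b => if b then t1 else t3

def g : Fin 45 → Fin 11 → Fin 11 :=
  ![![0, 1, 2, 3, 5, 4, 6, 7, 8, 10, 9],
    ![0, 1, 2, 3, 6, 4, 5, 7, 8, 10, 9],
    ![0, 1, 2, 3, 7, 4, 5, 6, 8, 10, 9],
    ![0, 1, 2, 3, 8, 4, 5, 6, 7, 10, 9],
    ![0, 1, 2, 3, 9, 4, 5, 6, 7, 10, 8],
    ![0, 1, 2, 3, 10, 4, 5, 6, 7, 9, 8],
    ![0, 1, 2, 3, 5, 4, 6, 7, 9, 10, 8],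
    ![0, 1, 2, 3, 6, 4, 5, 7, 9, 10, 8],
    ![0, 1, 2, 3, 7, 4, 5, 6, 9, 10, 8],
    ![0, 1, 2, 3, 8, 4, 5, 6, 9, 10, 7],
    ![0, 1, 2, 3, 9, 4, 5, 6, 8, 10, 7],
    ![0, 1, 2, 3, 10, 4, 5, 6, 8, 9, 7],
    ![0, 1, 2, 4, 5, 3, 6, 7, 8, 10, 9],
    ![0, 1, 2, 4, 6, 3, 5, 7, 8, 10, 9],
    ![0, 1, 2, 4, 7, 3, 5, 6, 8, 10, 9],
    ![0, 1, 2, 4, 8, 3, 5, 6, 7, 10, 9],
    ![0, 1, 2, 4, 9, 3, 5, 6, 7, 10, 8],
    ![0, 1, 2, 4, 10, 3, 5, 6, 7, 9, 8],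
    ![0, 1, 2, 5, 6, 3, 4, 7, 8, 10, 9],
    ![0, 1, 2, 5, 7, 3, 4, 6, 8, 10, 9],
    ![0, 1, 2, 5, 8, 3, 4, 6, 7, 10, 9],
    ![0, 1, 2, 5, 9, 3, 4, 6, 7, 10, 8],
    ![0, 1, 2, 5, 10, 3, 4, 6, 7, 9, 8],
    ![0, 1, 2, 6, 7, 3, 4, 5, 8, 10, 9],
    ![0, 1, 2, 6, 8, 3, 4, 5, 7, 10, 9],
    ![0, 1, 2, 6, 9, 3, 4, 5, 7, 10, 8],
    ![0, 1, 2, 6, 10, 3, 4, 5, 7, 9, 8],
    ![0, 1, 2, 7, 8, 3, 4, 5, 6, 10, 9],
    ![0, 1, 2, 7, 9, 3, 4, 5, 6, 10, 8],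
    ![0, 1, 2, 7, 10, 3, 4, 5, 6, 9, 8],
    ![0, 1, 2, 8, 9, 3, 4, 5, 6, 10, 7],
    ![0, 1, 2, 8, 10, 3, 4, 5, 6, 9, 7],
    ![0, 1, 2, 9, 10, 3, 4, 5, 6, 8, 7],
    ![0, 1, 2, 4, 5, 3, 6, 7, 9, 10, 8],
    ![0, 1, 2, 4, 6, 3, 5, 7, 9, 10, 8],
    ![0, 1, 2, 4, 7, 3, 5, 6, 9, 10, 8],
    ![0, 1, 2, 4, 8, 3, 5, 6, 9, 10, 7],
    ![0, 1, 2, 4, 9, 3, 5, 6, 8, 10, 7],
    ![0, 1, 2, 4, 10, 3, 5, 6, 8, 9, 7],
    ![0, 1, 2, 5, 6, 3, 4, 7, 9, 10, 8],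
    ![0, 1, 2, 5, 7, 3, 4, 6, 9, 10, 8],
    ![0, 1, 2, 5, 8, 3, 4, 6, 9, 10, 7],
    ![0, 1, 2, 5, 9, 3, 4, 6, 8, 10, 7],
    ![0, 1, 2, 5, 10, 3, 4, 6, 8, 9, 7],
    ![0, 1, 2, 6, 7, 3, 4, 5, 9, 10, 8]]

lemma low : 45 ≤ (A P0 ∩ B P0).card := by
  have hb : ∀ j, Function.Bijective (g j) := fun j =>
    Finite.injective_iff_bijective.1 (by revert j; decide +kernel)
  have hi : Function.Injective g := by
    have : ∀ i j, (∀ a, g i a = g j a) → i = j := by decide +kernel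
    exact fun i j e => this i j (congrFun e)
  have : (univ : Finset (Fin 45)).card ≤ (A P0 ∩ B P0).card := by
    refine card_le_card_of_injOn (fun j => Equiv.ofBijective (g j) (hb j)) ?_
      (fun a _ b _ e => hi (congrArg (fun σ : Perm (Fin 11) => (σ : Fin 11 → Fin 11)) e))
    intro j _
    have h0 : ∀ j, ∃ t, ∀ a b : Fin 6,
        g j ⟨0 + a, by omega⟩ < g j ⟨0 + b, by omega⟩ ↔ P0 t a < P0 t b := by decide +kernel
    have h5 : ∀ j, ∃ t, ∀ a b : Fin 6,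
        g j ⟨5 + a, by omega⟩ < g j ⟨5 + b, by omega⟩ ↔ P0 t a < P0 t b := by decide +kernel
    obtain ⟨t, ht⟩ := h0 j
    obtain ⟨u, hu⟩ := h5 j
    exact mem_coe.2 (mem_inter.2 ⟨mem_biUnion.2 ⟨(t, 0), mem_univ _, mem_E.2 ⟨by norm_num, ht⟩⟩,
      mem_biUnion.2 ⟨u, mem_univ _, mem_E.2 ⟨by norm_num, hu⟩⟩⟩)
  simpa using this

lemma det (o : Fin 10 → Fin 11) (ho : Set.range o = {4}ᶜ) (S : Finset (Perm (Fin 11)))
    (h : ∀ σ ∈ S, StrictMono (σ ∘ o)) : S.card ≤ 11 := by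
  have : S.card ≤ (univ : Finset (Fin 11)).card := by
    refine card_le_card_of_injOn (fun σ => σ 4) (fun _ _ => mem_coe.2 (mem_univ _)) ?_
    intro σ h1 τ h2 e
    have r : ∀ ρ : Perm (Fin 11), Set.range (ρ ∘ o) = {ρ 4}ᶜ := fun ρ => by
      rw [Set.range_comp, ho, Set.image_compl_eq ρ.bijective, Set.image_singleton]
    have e' : σ 4 = τ 4 := e
    have := ((h σ h1).range_inj (h τ h2)).1 (by rw [r, r, e'])
    ext x
    by_cases hx : x = 4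
    · rw [hx, e']
    · obtain ⟨j, rfl⟩ : x ∈ Set.range o := by rw [ho]; exact hx
      exact congrArg Fin.val (congrFun this j)
  simpa using this

def o (t u : Bool) : Fin 10 → Fin 11 :=
  if t then (if u then ![0, 1, 2, 3, 5, 6, 7, 8, 10, 9] else ![0, 1, 2, 3, 5, 8, 6, 7, 10, 9])
  else (if u then ![0, 3, 1, 2, 5, 6, 7, 8, 10, 9] else ![0, 3, 1, 2, 5, 8, 6, 7, 10, 9])

lemma pair (t u : Bool) : (E (P1 t) 0 ∩ E (P1 u) 5).card ≤ 11 := by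
  refine det (o t u) ?_ _ ?_
  · ext x
    have : ∀ t u x, (∃ j, o t u j = x) ↔ ¬ x = 4 := by decide +kernel
    exact this t u x
  · intro σ hσ
    obtain ⟨_, h1⟩ := mem_E.1 (mem_inter.1 hσ).1
    obtain ⟨_, h2⟩ := mem_E.1 (mem_inter.1 hσ).2
    rw [Fin.strictMono_iff_lt_succ]
    intro j
    have : ∀ t u, ∀ j : Fin 9, (∃ a b : Fin 6, P1 t a < P1 t b ∧
        o t u j.castSucc = ⟨0 + a, by omega⟩ ∧ o t u j.succ = ⟨0 + b, by omega⟩) ∨
        (∃ a b : Fin 6, P1 u a < P1 u b ∧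
        o t u j.castSucc = ⟨5 + a, by omega⟩ ∧ o t u j.succ = ⟨5 + b, by omega⟩) := by
      decide +kernel
    rcases this t u j with ⟨a, b, h, e1, e2⟩ | ⟨a, b, h, e1, e2⟩
    · show σ _ < σ _
      rw [e1, e2]; exact (h1 a b).2 h
    · show σ _ < σ _
      rw [e1, e2]; exact (h2 a b).2 h

lemma up : (A P1 ∩ B P1).card ≤ 44 := by
  have : A P1 ∩ B P1 ⊆ (univ : Finset (Bool × Bool)).biUnion
      (fun t => E (P1 t.1) 0 ∩ E (P1 t.2) 5) := by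
    intro σ hσ
    obtain ⟨t, _, ht⟩ := mem_biUnion.1 (mem_inter.1 hσ).1
    obtain ⟨u, _, hu⟩ := mem_biUnion.1 (mem_inter.1 hσ).2
    have k : ∀ (t : Bool × Fin 5) (u : Bool), Compat (P1 t.1) (P1 u) t.2 5 → (t.2 : ℕ) = 0 := by
      decide +kernel
    rw [k t u (compat ht hu)] at ht
    exact mem_biUnion.2 ⟨(t.1, u), mem_univ _, mem_inter.2 ⟨ht, hu⟩⟩
  refine (card_le_card this).trans ?_
  exact card_biUnion_le_card_mul (univ : Finset (Bool × Bool)) _ 11 (fun t _ => pair t.1 t.2)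

lemma A_le : (A P0).card ≤ (A P1).card := by
  have k : ∀ t u : Bool × Fin 5, Compat (P1 t.1) (P1 u.1) t.2 u.2 → t = u := by decide +kernel
  unfold A
  rw [card_biUnion (t := fun t : Bool × Fin 5 => E (P1 t.1) t.2)
    (fun t _ u _ h => disjoint_left.2 fun σ h1 h2 => h (k t u (compat h1 h2)))]
  exact card_biUnion_le.trans (sum_le_sum fun t _ => E_le _ _ _)

lemma B_le : (B P0).card ≤ (B P1).card := by
  have k : ∀ t u : Bool, Compat (P1 t) (P1 u) 5 5 → t = u := by decide +kernel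
  unfold B
  rw [card_biUnion (t := fun t : Bool => E (P1 t) 5)
    (fun t _ u _ h => disjoint_left.2 fun σ h1 h2 => h (k t u (compat h1 h2)))]
  exact card_biUnion_le.trans (sum_le_sum fun t _ => E_le _ _ _)

theorem result : ∃ τ₁ τ₂ : Perm (Fin 6), ⇑τ₁ = ![0, 1, 2, 3, 5, 4] ∧ ⇑τ₂ = ![0, 1, 2, 4, 5, 3] ∧
    ∃ B' : Finset (Perm (Fin 6)), B'.card = 2 ∧ alpha B' 11 < alpha {τ₁, τ₂} 11 := by
  refine ⟨t1, t2, by decide, by decide, {t1, t3}, by decide, ?_⟩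
  have a0 := alpha_eq P0
  have a1 := alpha_eq P1
  have u0 := card_union_add_card_inter (A P0) (B P0)
  have u1 := card_union_add_card_inter (A P1) (B P1)
  have := low
  have := up
  have := A_le
  have := B_le
  have e0 : alpha {P0 true, P0 false} 11 = alpha {t1, t2} 11 := rfl
  have e1 : alpha {P1 true, P1 false} 11 = alpha {t1, t3} 11 := rfl
  omega

end Pool.Agent.Results.MP_f2c072_co.Q1
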